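import Mathlib

set_option autoImplicit false

namespace Pool.Agent.Results.MP_091ced_gt.Closed
open Set

universe u

/-- The derived set. -/
def der {X : Type u} [TopologicalSpace X] (A : Set X) : Set X := {x | x ∈ closure (A \ {x})}

theorem result (X : Type u) [TopologicalSpace X] [T0Space X] (A : Set X) :
    IsClosed (der (der A)) := by
  refine isClosed_of_closure_subset fun x hx => ?_
  by_contra hn
  obtain ⟨U, hU, hxU, hUB⟩ : ∃ U, IsOpen U ∧ x ∈ U ∧ ∀ z ∈ U, z ∈ der A → z = x := by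
    refine ⟨(closure (der A \ {x}))ᶜ, isClosed_closure.isOpen_compl, hn, fun z hz hzB => ?_⟩
    by_contra hzx
    exact hz (subset_closure ⟨hzB, hzx⟩)
  obtain ⟨y, hyU, hy⟩ := mem_closure_iff.1 hx U hU hxU
  have hyx : y ≠ x := fun e => hn (e ▸ hy)
  have h1 : ∀ W, IsOpen W → y ∈ W → x ∈ W ∧ x ∈ der A := by
    intro W hW hyW
    obtain ⟨z, ⟨hzW, hzU⟩, hzB, -⟩ := mem_closure_iff.1 hy (W ∩ U) (hW.inter hU) ⟨hyW, hyU⟩
    exact hUB z hzU hzB ▸ ⟨hzW, hzB⟩
  have hyB : y ∉ der A := fun h => hyx (hUB y hyU h)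
  have h2 := h1 _ isClosed_closure.isOpen_compl hyB
  refine hyx (Inseparable.eq (inseparable_iff_forall_isOpen.2 fun V hV =>
    ⟨fun h => (h1 V hV h).1, fun h => ?_⟩))
  obtain ⟨z, ⟨hzV, hzW⟩, hzA, -⟩ := mem_closure_iff.1 h2.2 _
    (hV.inter isClosed_closure.isOpen_compl) ⟨h, h2.1⟩
  by_contra hyV
  exact hzW (subset_closure ⟨hzA, fun e => hyV (e ▸ hzV)⟩)

end Pool.Agent.Results.MP_091ced_gt.Closed
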